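import Pool.Agent.Y213.EC.Final

/-!
# Rational points of varieties finite over a power of an elliptic curve

`E : y² = x³ + a x + b` is an elliptic curve over a number field `K` (any rank, with or without
complex multiplication) and `X` is a closed subvariety of `E ^ r × ℙ ^ n` over `K`, the zero set of
multihomogeneous polynomials `G_1, …, G_q`. If the fibres of `X → E ^ r` have at most `D` points,
then `X` has `K`-rational points over only `O(B ^ ε)` of the points of height at most `B` of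
`ℙ ^ n (K)`.
-/

set_option autoImplicit false

namespace Pool.Agent.Results.MP_2ae8fe_ag.EllipticPowerFiniteFibres

open MvPolynomial NumberField

open scoped LinearAlgebra.Projectivization

/-- `v` are homogeneous coordinates of a point of the curve `y² = x³ + a x + b` -/
def OnE {k : Type} [Field k] (a b : k) (v : Fin 3 → k) : Prop :=
  v ≠ 0 ∧ v 1 ^ 2 * v 2 = v 0 ^ 3 + a * v 0 * v 2 ^ 2 + b * v 2 ^ 3

/-- `F` is homogeneous of degree `d i` in the coordinates `(i, 0), (i, 1), (i, 2)` of the `i`-th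
point of the plane, and homogeneous of degree `m` in the last `n + 1` variables -/
def MultiHom {O : Type} [CommRing O] {r n : ℕ} (F : MvPolynomial ((Fin r × Fin 3) ⊕ Fin (n + 1)) O)
    (d : Fin r → ℕ) (m : ℕ) : Prop :=
  ∀ e ∈ F.support, (∀ i, ∑ j, e (Sum.inl (i, j)) = d i) ∧ ∑ i, e (Sum.inr i) = m

/-- the fibre over `V` (the homogeneous coordinates of a point of `E ^ r` over `k`), in the
projective `n`-space over `k`, of the subvariety defined by the `G e` -/
def Fibre {O k : Type} [CommRing O] [Field k] (φ : O →+* k) {r n q : ℕ}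
    (G : Fin q → MvPolynomial ((Fin r × Fin 3) ⊕ Fin (n + 1)) O) (V : Fin r → Fin 3 → k) :
    Set (ℙ k (Fin (n + 1) → k)) :=
  {y | ∀ e, eval₂ φ (Sum.elim (fun ij => V ij.1 ij.2) y.rep) (G e) = 0}

/-- the `K`-rational points of projective `n`-space over which `X` has a `K`-rational point -/
def Image {K : Type} [Field K] (a b : 𝓞 K) {r n q : ℕ}
    (G : Fin q → MvPolynomial ((Fin r × Fin 3) ⊕ Fin (n + 1)) (𝓞 K)) :
    Set (ℙ K (Fin (n + 1) → K)) :=
  {y | ∃ V : Fin r → Fin 3 → K, (∀ i, OnE (a : K) (b : K) (V i)) ∧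
    y ∈ Fibre (algebraMap (𝓞 K) K) G V}

theorem result (K : Type) [Field K] [NumberField K] (a b : 𝓞 K)
    (hE : 4 * a ^ 3 + 27 * b ^ 2 ≠ 0) (r n q : ℕ)
    (G : Fin q → MvPolynomial ((Fin r × Fin 3) ⊕ Fin (n + 1)) (𝓞 K))
    (d : Fin q → Fin r → ℕ) (m : Fin q → ℕ) (hG : ∀ e, MultiHom (G e) (d e) (m e))
    (σ : K →+* ℂ) (D : ℕ)
    (hX : ∀ V : Fin r → Fin 3 → ℂ, (∀ i, OnE (σ a) (σ b) (V i)) →
      (Fibre (σ.comp (algebraMap (𝓞 K) K)) G V).encard ≤ D)
    (ε : ℝ) (hε : 0 < ε) :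
    ∃ C : ℝ, ∀ B : ℝ, 1 ≤ B → {y ∈ Image a b G | y.mulHeight ≤ B}.Finite ∧
      ({y ∈ Image a b G | y.mulHeight ≤ B}.ncard : ℝ) ≤ C * B ^ ε :=
  Pool.Agent.Y213.EC.partB K r (n + 1) q a b hE G d m (fun e x hx => (hG e x hx).1)
    (fun e x hx => (hG e x hx).2) D σ hX ε hε

end Pool.Agent.Results.MP_2ae8fe_ag.EllipticPowerFiniteFibres
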